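import Pool.Agent.TI.Final

/-!
# MP_0c85a0_an: the entropy of the Tanaka–Ito maps is non-increasing on `[g, 1]`

* `T α x = 1/x - ⌊1/x + 1 - α⌋` (`T α 0 = 0`) is in `Pool/Agent/TI/Coupling.lean`;
* `ACIP α μ` (absolutely continuous `T α`-invariant probability measure on `[α-1, α]`) is in
  `Pool/Agent/TI/Defs.lean`;
* `ksEntropy` (Kolmogorov–Sinai entropy) is in `Pool/Agent/Helper45/GEntDefs.lean`.
-/

open MeasureTheory Set Pool.Agent.TI Pool.Agent.Helper45.Graph

namespace Pool.Agent.Results.MP_0c85a0_an.EntropyAntitone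

/-- For every `α ∈ [g, 1]`, `g = (√5-1)/2`, there is exactly one absolutely continuous `T_α`-invariant probability
measure `μ_α` on `[α-1, α]`, and the metric entropy `h(α) = h_{μ_α}(T_α)` is non-increasing on `[g, 1]`. -/
theorem result : ∃ μ : ℝ → Measure ℝ,
    (∀ α ∈ Icc ((Real.sqrt 5 - 1) / 2) 1, ACIP α (μ α) ∧ ∀ ν, ACIP α ν → ν = μ α) ∧
      AntitoneOn (fun α => ksEntropy (μ α) (T α)) (Icc ((Real.sqrt 5 - 1) / 2) 1) :=
  antitone_all

end Pool.Agent.Results.MP_0c85a0_an.EntropyAntitone
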